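import Mathlib
import Pool.Agent.T44.FC.Final

/-!
# The Fermat-Catalan equation with bases that are polynomial values at highly divisible integers

There is a constant `K` such that only finitely many value triples `(x ^ p, y ^ q, z ^ r)` of solutions of
the Fermat-Catalan equation (all exponents free) have bases of the form

`x = |F(w)|`, `y = |G(w)|`, `z = |H(w)|`, `w = ℓ ^ n u`,

where `ℓ` is a prime which divides one of the bases (the prime `2` always does), `u` is a nonzero integer,
`F`, `G`, `H` are integer polynomials of which at most one is constant, and a number `S` with `S ^ K ≤ n`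
bounds `ℓ`, the degrees of the polynomials, and the base `2` logarithms of `|u|` and of the absolute values of
all coefficients.

So with `c = 1 / K` the degrees may be as large as `n ^ c`, and the cofactor `u` and the coefficients as large
as `2 ^ (n ^ c)`. Nothing is fixed: the prime, `u`, `n`, the polynomials and the three exponents all vary, and
there is no condition on leading coefficients. For example the bases may be `a 2 ^ n + b`, `c 2 ^ n + d`, `e`
with `|a|, |b|, |c|, |d|, e ≤ 2 ^ (n ^ c)`.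

Proof. Let `ℓ` divide `F(w)`. Linear forms in two logarithms (starting library) bound the exponents by a power
of `S n`, so that their logarithms are small. In the first case `F(w) ^ p` is divisible by `ℓ ^ T` with `T` a
power of `S`. Then linear forms in five `ℓ`-adic logarithms show that the constant terms satisfy
`± G(0) ^ q ± H(0) ^ r = 0`. After a scaling which makes all constant terms `1` the equation becomes
`G ^ q - H ^ r = κ F ^ p` at an `ℓ`-adically small rational number `x`. The lowest term `e X ^ t` of the power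
series `G ^ q - H ^ r` has `t ≤ 2 S + 1` and a small coefficient, so `κ` is near `e x ^ t`; again by linear
forms in logarithms `κ = e x ^ t`. So `G ^ q - H ^ r - e X ^ t F ^ p` vanishes at `x`, and as all its
coefficients of low degree are small, it is divisible by a high power of `X`. A Wronskian argument shows that
then `G ^ q - H ^ r = e X ^ t F ^ p` as polynomials, which contradicts the theorem of Mason and Stothers.
In the second case `p < T`, so that `|F(w)| ^ p` is at most a small power of `|w|`. Linear forms in four real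
logarithms, applied to the reversed polynomials at the small real number `1 / w`, show that `|G(w)| ^ q` and
`|H(w)| ^ r` are at most small powers of `|w|` as well, so that all three exponents are at most a power of
`S` (for a constant base again by linear forms in logarithms). Then `± F ^ p ± G ^ q ± H ^ r` is a nonzero
polynomial with coefficients much smaller than `|w|`, and it does not vanish at `w`.
-/

set_option autoImplicit false

namespace Pool.Agent.Results.MP_2738db_nt.DivisibleArguments

open Polynomial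
open Pool.Agent.T44.FC Pool.Agent.R477.FC

/-- `F` has degree at most `S` and coefficients of absolute value at most `2 ^ S` -/
def Small (S : ℕ) (F : ℤ[X]) : Prop :=
  F.natDegree ≤ S ∧ ∀ j, |F.coeff j| ≤ 2 ^ S

/-- at most one of three polynomials is constant -/
def AtMostOneConstant (F G H : ℤ[X]) : Prop :=
  (0 < F.natDegree ∨ 0 < G.natDegree) ∧ (0 < G.natDegree ∨ 0 < H.natDegree) ∧
    (0 < F.natDegree ∨ 0 < H.natDegree)

/-- the value triples `(x ^ p, y ^ q, z ^ r)` of the solutions of `x ^ p + y ^ q = z ^ r` in pairwise coprime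
positive integers and positive exponents with `1/p + 1/q + 1/r < 1` whose bases are the absolute values of
integer polynomials `F`, `G`, `H`, at most one of them constant, at `w = ℓ ^ n u`, where `ℓ` is a prime which is
`2` or divides `x y z`, and where `ℓ ≤ S`, `0 < |u| ≤ 2 ^ S`, the polynomials have degree at most `S` and
coefficients of absolute value at most `2 ^ S`, for a number `S` with `S ^ K ≤ n` -/
def Values (K : ℕ) : Set (ℕ × ℕ × ℕ) :=
  {v | ∃ (x y z p q r S n ℓ : ℕ) (u : ℤ) (F G H : ℤ[X]), 0 < x ∧ 0 < y ∧ 0 < z ∧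
    Nat.Coprime x y ∧ Nat.Coprime x z ∧ Nat.Coprime y z ∧ 0 < p ∧ 0 < q ∧ 0 < r ∧
    (1 : ℚ) / p + 1 / q + 1 / r < 1 ∧ x ^ p + y ^ q = z ^ r ∧ v = (x ^ p, y ^ q, z ^ r) ∧
    ℓ.Prime ∧ (ℓ = 2 ∨ ℓ ∣ x * y * z) ∧ ℓ ≤ S ∧ u ≠ 0 ∧ |u| ≤ 2 ^ S ∧ S ^ K ≤ n ∧
    Small S F ∧ Small S G ∧ Small S H ∧ AtMostOneConstant F G H ∧
    |F.eval ((ℓ : ℤ) ^ n * u)| = x ∧ |G.eval ((ℓ : ℤ) ^ n * u)| = y ∧
    |H.eval ((ℓ : ℤ) ^ n * u)| = z}

theorem result : ∃ K : ℕ, (Values K).Finite := by
  obtain ⟨K, V, h⟩ := divisible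
  refine ⟨K, ((Set.finite_Iic V).prod ((Set.finite_Iic V).prod (Set.finite_Iic V))).subset ?_⟩
  rintro v ⟨x, y, z, p, q, r, S, n, ℓ, u, F, G, H, hx, hy, hz, hxy, hxz, hyz, hp, hq, hr, hlt, heq, hv,
    hℓ, hℓd, hℓS, hu, huS, hSn, hF, hG, hH, hnc, e1, e2, e3⟩
  have nat : ∀ {a : ℤ} {B : ℕ}, |a| ≤ 2 ^ B → a.natAbs ≤ 2 ^ B := by
    intro a B ha
    rw [Int.abs_eq_natAbs] at ha
    exact_mod_cast ha
  have nat' : ∀ {a : ℤ} {b : ℕ}, |a| = b → a.natAbs = b := by
    intro a b hab
    rw [Int.abs_eq_natAbs] at hab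
    exact_mod_cast hab
  have hfam : Fam S ℓ u F G H :=
    ⟨hℓ, hℓS, hu, nat huS, hF.1, hG.1, hH.1, fun j => nat (hF.2 j), fun j => nat (hG.2 j),
      fun j => nat (hH.2 j), hnc.1, hnc.2.1, hnc.2.2.symm⟩
  have hyp : Hyp p q r := by
    have hp' : (0 : ℚ) < p := by exact_mod_cast hp
    have hq' : (0 : ℚ) < q := by exact_mod_cast hq
    have hr' : (0 : ℚ) < r := by exact_mod_cast hr
    have h1 : ((q * r + r * p + p * q : ℕ) : ℚ) < ((p * q * r : ℕ) : ℚ) := by
      push_cast
      have h2 := mul_lt_mul_of_pos_right hlt (by positivity : (0 : ℚ) < p * q * r)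
      have h3 : ((1 : ℚ) / p + 1 / q + 1 / r) * (p * q * r) = q * r + r * p + p * q := by
        field_simp
      linarith
    exact_mod_cast h1
  have two : ∀ {a b c : ℕ}, 0 < a → 0 < b → 0 < c → Hyp a b c → 2 ≤ a := by
    intro a b c ha hb hc h0
    by_contra hcon
    have ha1 : a = 1 := by omega
    subst ha1
    unfold Hyp at h0
    simp only [one_mul, mul_one] at h0
    omega
  have hp2 : 2 ≤ p := two hp hq hr hyp
  have hq2 : 2 ≤ q := two hq hr hp (by unfold Hyp at hyp ⊢; nlinarith)
  have hr2 : 2 ≤ r := two hr hp hq (by unfold Hyp at hyp ⊢; nlinarith)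
  have f1 := nat' e1
  have f2 := nat' e2
  have f3 := nat' e3
  have hsol : SSol (F.eval ((ℓ : ℤ) ^ n * u)).natAbs (G.eval ((ℓ : ℤ) ^ n * u)).natAbs
      (H.eval ((ℓ : ℤ) ^ n * u)).natAbs p q r 1 1 (-1) := by
    rw [f1, f2, f3]
    refine ⟨hx, hy, hz, hxy, hxz, hyz, hp2, hq2, hr2, Or.inl rfl, Or.inl rfl, Or.inr rfl, ?_⟩
    have : (x : ℤ) ^ p + (y : ℤ) ^ q = (z : ℤ) ^ r := by exact_mod_cast heq
    linarith
  have hdv : ℓ ∣ x ∨ ℓ ∣ y ∨ ℓ ∣ z := by
    rcases hℓd with rfl | h1
    · by_contra hcon
      push Not at hcon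
      obtain ⟨c1, c2, c3⟩ := hcon
      rw [← even_iff_two_dvd, Nat.not_even_iff_odd] at c1 c2 c3
      have h2 := (c1.pow (n := p)).add_odd (c2.pow (n := q))
      rw [heq] at h2
      exact (Nat.not_even_iff_odd.2 (c3.pow (n := r))) h2
    · rcases (Nat.Prime.dvd_mul hℓ).1 h1 with h2 | h2
      · rcases (Nat.Prime.dvd_mul hℓ).1 h2 with h3 | h3
        · exact Or.inl h3
        · exact Or.inr (Or.inl h3)
      · exact Or.inr (Or.inr h2)
  have hdv' : (ℓ : ℤ) ∣ F.eval ((ℓ : ℤ) ^ n * u) ∨ (ℓ : ℤ) ∣ G.eval ((ℓ : ℤ) ^ n * u) ∨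
      (ℓ : ℤ) ∣ H.eval ((ℓ : ℤ) ^ n * u) := by
    rw [Int.natCast_dvd, Int.natCast_dvd, Int.natCast_dvd, f1, f2, f3]
    exact hdv
  obtain ⟨h1, h2, h3⟩ := h S n ℓ u F G H hfam hSn p q r 1 1 (-1) hsol hyp hdv'
  rw [f1] at h1
  rw [f2] at h2
  rw [f3] at h3
  rw [hv]
  exact ⟨h1, h2, h3⟩

end Pool.Agent.Results.MP_2738db_nt.DivisibleArguments
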