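import Mathlib
import Pool.Agent.H42FC.All

/-!
# The Fermat-Catalan equation with two given bases: bounds free of the size of the exponents

Let `a, b ≥ 2` be coprime and `k ≥ 3`. The number of ALL pairs `(m, n)` of positive integers such that
`a ^ m + b ^ n`, `b ^ n - a ^ m` or `a ^ m - b ^ n` is the `k`-th power of a positive integer is at most

`s(k) = 10 ^ 6 * k ^ 2 + 500 * k * ∏ gcd (k, p - 1)`, the product over the primes `p` dividing `a b`

(the product is the number of `k`-th roots of unity modulo the radical of `a b`). In particular, if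
`k` is prime and no prime factor of `a b` is `1` modulo `k`, there are at most `2 * 10 ^ 6 * k ^ 2` pairs,
whatever `a` and `b` are. For all exponents `k ≥ 3` together there are at most
`s(3) + s(4) + ... + s(K)` pairs with `K = (2 * 10 ^ 5 * r * log (a b)) ^ 4`, where `r` is any prime
dividing `a b` (for example the least one). The third base and the third exponent are free, and so are
`m` and `n`.

The starting theorem `TwoGivenBases` counts the pairs `m, n ≤ N`, with a power of `log N` in the bound
and a factor `C ^ ω(a b)`.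

Proof. `U ^ q - s A (a ^ x) ^ q = σ b ^ y` for a prime power `q`, with `A = a ^ i`, `i < q`. Solutions are
classified by `i`, the signs, the residues of `U / a ^ x` modulo the primes dividing `b` and by the
approximate size of `b ^ y` relative to the height. In a class with large heights the Thue-Siegel
principle (Pade approximations to the binomial function, used at the primes dividing `b` and at the
real place at the same time; file `Pool.Agent.H374R2.V.G` of the starting library, in which the size
conditions with the bound `N` for the second base are replaced by a lower bound for the heights) leaves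
at most five solutions. The solutions of small height are counted trivially. If the common prime
factor of `q` and the base `b` is not `1`, the two bases are exchanged. The exponent `q` is
bounded by linear forms in two logarithms, `p`-adic for a prime `r` dividing `a b` and real.
-/

set_option autoImplicit false

namespace Pool.Agent.Results.MP_2738db_nt.GivenBases

/-- Two given coprime bases `a, b ≥ 2`: for every `k ≥ 3` there are at most
`10 ^ 6 * k ^ 2 + 500 * k * ∏ gcd (k, p - 1)` (product over the primes `p ∣ a b`) pairs `(m, n)` of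
positive integers (of any size) for which one of `a ^ m + b ^ n`, `b ^ n - a ^ m`, `a ^ m - b ^ n` is
the `k`-th power of a positive integer, and for all `k ≥ 3` together there are at most as many as
the sum of these bounds over `3 ≤ k ≤ (2 * 10 ^ 5 * r * log (a b)) ^ 4`, for every prime `r ∣ a b`. -/
theorem result (a b : ℕ) (ha : 2 ≤ a) (hb : 2 ≤ b) (hab : Nat.Coprime a b) :
    (∀ k : ℕ, 3 ≤ k →
      {p : ℕ × ℕ | 0 < p.1 ∧ 0 < p.2 ∧ ∃ c : ℕ, 0 < c ∧
        (a ^ p.1 + b ^ p.2 = c ^ k ∨ a ^ p.1 + c ^ k = b ^ p.2 ∨ b ^ p.2 + c ^ k = a ^ p.1)}.Finite ∧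
      {p : ℕ × ℕ | 0 < p.1 ∧ 0 < p.2 ∧ ∃ c : ℕ, 0 < c ∧
        (a ^ p.1 + b ^ p.2 = c ^ k ∨ a ^ p.1 + c ^ k = b ^ p.2 ∨ b ^ p.2 + c ^ k = a ^ p.1)}.ncard ≤
        10 ^ 6 * k ^ 2 + 500 * k * ∏ p ∈ (a * b).primeFactors, Nat.gcd k (p - 1)) ∧
    (∀ r : ℕ, r.Prime → r ∣ a * b →
      {p : ℕ × ℕ | 0 < p.1 ∧ 0 < p.2 ∧ ∃ c k : ℕ, 0 < c ∧ 3 ≤ k ∧
        (a ^ p.1 + b ^ p.2 = c ^ k ∨ a ^ p.1 + c ^ k = b ^ p.2 ∨ b ^ p.2 + c ^ k = a ^ p.1)}.Finite ∧
      {p : ℕ × ℕ | 0 < p.1 ∧ 0 < p.2 ∧ ∃ c k : ℕ, 0 < c ∧ 3 ≤ k ∧
        (a ^ p.1 + b ^ p.2 = c ^ k ∨ a ^ p.1 + c ^ k = b ^ p.2 ∨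
          b ^ p.2 + c ^ k = a ^ p.1)}.ncard ≤
        ∑ k ∈ Finset.Icc 3 ⌊(2 * 10 ^ 5 * r * Real.log (a * b)) ^ 4⌋₊,
          (10 ^ 6 * k ^ 2 + 500 * k * ∏ p ∈ (a * b).primeFactors, Nat.gcd k (p - 1))) :=
  ⟨fun _ hk => Pool.Agent.H42FC.repk_main ha hb hab hk,
    fun _ hr hrab => Pool.Agent.H42FC.pow3_main ha hb hab hr hrab⟩

end Pool.Agent.Results.MP_2738db_nt.GivenBases
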