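import Mathlib
import Pool.Agent.H8FC.Sets
import Pool.Agent.H8MT.Fc

/-!
# The Fermat-Catalan equation for nearly all second bases and all first bases of a large set: a sharp
# threshold for every third exponent, and second bases near `β N * α ^ N` for almost all `α`

For every `ε > 0` there is `δ > 0` such that for all large `N`, all `K ≥ 1` and all intervals
`(M, M + N]` (situated anywhere):

* for EVERY integer `u ≠ 0`, `|u| ≤ exp (N ^ δ)` (a given term, for example `u = ± a ^ x` with a first base of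
  exponential size) at most `N ^ (1 / K + ε)` of the integers `b` of the interval are such that `b ^ y + u` is
  plus or minus a `k`-th power for some `y ≥ 1`, `k ≥ K` with `b ^ y ≤ exp (N ^ δ)`;
* for EVERY set `A` of at most `N ^ (1 - 1 / K - ε)` positive integers all but `N ^ (1 - ε / 2)` of the
  integers `b` of the interval have no solution of `a ^ x + b ^ y = c ^ k`, `a ^ x + c ^ k = b ^ y` or
  `b ^ y + c ^ k = a ^ x` with a first base `a ∈ A`, with exponents `x, y ≥ 1` and `k ≥ K` and terms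
  `a ^ x, b ^ y ≤ exp (N ^ δ)`. For `K = 2`: nearly all `b` and every `a ≤ N ^ (1 / 2 - ε)`, all three exponents
  free (`k ≥ 2`).

Moreover, for almost all real numbers `α > 1` and all large `N` no integer `b` with
`|b - β N * α ^ N| ≤ N ^ B` is the second base of a solution with a first base in `A N`, with terms
`a ^ x, b ^ y ≤ exp (N ^ B)` and `k ≥ 2`; here the `β N ≥ 1` are given real numbers and the `A N` are given sets
of at most `N ^ B` positive integers, for example `{1, …, N ^ B}`.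

No coprimality is assumed. The exponents `1 / K` and `1 - 1 / K` cannot be improved: every prime `b ≥ 3` has a
solution `a + b = c ^ K` with `a`, `b` coprime and `1 ≤ a ≤ K 2 ^ K b ^ (1 - 1 / K)` (third part, for `x = y = 1`).

Proof. The determinant method of Bombieri and Pila on the curve `± z ^ k = (t + M) ^ y + u`, with auxiliary
polynomials of degree less than `k` in `z` and of degree about `N ^ (3 δ')` in `t`, which is large compared with
`y` and with the logarithms of the coefficients. Then the huge third coordinate does not matter, and one prime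
`q` of size `N ^ (1 / k + ε)` which does not divide `u y k` is enough; such a prime exists by Chebyshev's bounds.
The result on almost all `α` follows from the second part, for intervals of length a large power of `N` (so
that `exp (N ^ B)` is admissible), with the lemma of Borel and Cantelli.
-/

set_option autoImplicit false

namespace Pool.Agent.Results.MP_2738db_nt.SharpThreshold

open MeasureTheory Filter

/-- `b ^ y + u` is plus or minus a `k`-th power for some `y ≥ 1` and `k ≥ K` with `b ^ y ≤ W` -/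
def Completes (K : ℕ) (W : ℝ) (u : ℤ) (b : ℕ) : Prop :=
  ∃ y k c : ℕ, 1 ≤ y ∧ K ≤ k ∧ (b : ℝ) ^ y ≤ W ∧ |(b : ℤ) ^ y + u| = (c : ℤ) ^ k

/-- there is a solution with the bases `a`, `b` and a third base `c ≥ 1` whose exponent is at least
`K`, where `a ^ x` and `b ^ y` are at most `W` -/
def Solvable (K : ℕ) (W : ℝ) (a b : ℕ) : Prop :=
  ∃ x y k c : ℕ, 1 ≤ x ∧ 1 ≤ y ∧ K ≤ k ∧ 1 ≤ c ∧ (a : ℝ) ^ x ≤ W ∧ (b : ℝ) ^ y ≤ W ∧
    (a ^ x + b ^ y = c ^ k ∨ a ^ x + c ^ k = b ^ y ∨ b ^ y + c ^ k = a ^ x)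

theorem result :
    (∀ ε : ℝ, 0 < ε → ∃ δ : ℝ, 0 < δ ∧ ∃ N₀ : ℕ, ∀ N : ℕ, N₀ ≤ N → ∀ K : ℕ, 1 ≤ K → ∀ M : ℕ,
      (∀ u : ℤ, u ≠ 0 → |(u : ℝ)| ≤ Real.exp ((N : ℝ) ^ δ) →
        (({b : ℕ | M < b ∧ b ≤ M + N ∧ Completes K (Real.exp ((N : ℝ) ^ δ)) u b}.ncard : ℕ) : ℝ) ≤
          (N : ℝ) ^ (1 / (K : ℝ) + ε)) ∧
      (∀ A : Finset ℕ, (∀ a ∈ A, 1 ≤ a) → (A.card : ℝ) ≤ (N : ℝ) ^ (1 - 1 / (K : ℝ) - ε) →
        (({b : ℕ | M < b ∧ b ≤ M + N ∧
            ∃ a ∈ A, Solvable K (Real.exp ((N : ℝ) ^ δ)) a b}.ncard : ℕ) : ℝ) ≤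
          (N : ℝ) ^ (1 - ε / 2))) ∧
    (∀ K : ℕ, 2 ≤ K → ∀ b : ℕ, b.Prime → 3 ≤ b →
      ∃ a c : ℕ, 1 ≤ a ∧ (a : ℝ) ≤ K * 2 ^ K * (b : ℝ) ^ (1 - 1 / (K : ℝ)) ∧ Nat.Coprime a b ∧
        a + b = c ^ K) ∧
    (∀ β : ℕ → ℝ, (∀ N, 1 ≤ β N) → ∀ (B : ℕ) (A : ℕ → Finset ℕ), (∀ N, ∀ a ∈ A N, 1 ≤ a) →
      (∀ᶠ N : ℕ in atTop, ((A N).card : ℝ) ≤ (N : ℝ) ^ B) →
      ∀ᵐ α : ℝ, 1 < α → ∀ᶠ N : ℕ in atTop, ∀ b : ℕ, |(b : ℝ) - β N * α ^ N| ≤ (N : ℝ) ^ B →
        ∀ a ∈ A N, ¬ Solvable 2 (Real.exp ((N : ℝ) ^ B)) a b) := by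
  refine ⟨fun ε hε => ?_, Pool.Agent.H8FC.sharp,
    fun β hβ B A hA hA2 => Pool.Agent.H8MT.fc_powers 2 le_rfl β hβ B A hA hA2⟩
  obtain ⟨δ, hδ, N₀, h⟩ := Pool.Agent.H8FC.few_sets ε hε
  refine ⟨δ, hδ, N₀, fun N hN K hK M => ?_⟩
  obtain ⟨h1, h2⟩ := h N hN K hK M
  have hfin : ∀ P : ℕ → Prop, {b : ℕ | M < b ∧ b ≤ M + N ∧ P b}.Finite := fun P =>
    (Finset.Ioc M (M + N)).finite_toSet.subset fun b hb => by
      rw [Finset.coe_Ioc]
      exact ⟨hb.1, hb.2.1⟩
  refine ⟨fun u hu hud => ?_, fun A hA hAc => ?_⟩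
  · have hf := hfin (Completes K (Real.exp ((N : ℝ) ^ δ)) u)
    rw [Set.ncard_eq_toFinset_card _ hf]
    refine h1 u hu hud _ fun b hb => ?_
    rw [Set.Finite.mem_toFinset] at hb
    exact hb
  · have hf := hfin (fun b => ∃ a ∈ A, Solvable K (Real.exp ((N : ℝ) ^ δ)) a b)
    rw [Set.ncard_eq_toFinset_card _ hf]
    refine h2 A hA hAc _ fun b hb => ?_
    rw [Set.Finite.mem_toFinset] at hb
    exact hb

end Pool.Agent.Results.MP_2738db_nt.SharpThreshold
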