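import Mathlib
import Pool.Agent.H8FC.FcBox

/-!
# The Fermat-Catalan equation with two bases in short intervals of any height

First part. For every `ε > 0` there are `R`, `δ > 0` such that for all large `N` and all intervals
`(M₁, M₁ + N]` and `(M₂, M₂ + N]` (situated anywhere: the bases may be of size `exp (N ^ δ)`) the equation
`a ^ x + b ^ y = c ^ k`, where the term `c ^ k` may stand in any of the three positions, has at most `N ^ ε`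
solutions with `a` and `b` coprime and in the intervals, exponents `x, y ≥ 2`, `k ≥ R`, terms
`a ^ x, b ^ y ≤ exp (N ^ δ)`; the third base and the three exponents are free.

Second part. With coefficients: for nonzero integers `α, β, γ` of absolute value at most `exp (N ^ δ)` the
solutions of `α a ^ x + β b ^ y = γ c ^ k` with exponents `x, y ≥ 1`, `k ≥ R`, in boxes as before

* have together at most `N ^ ε` third terms `c ^ k`;
* involve, for every `m ≥ 1`, at most `N ^ (1 / m + ε)` quadruples `(a, b, a ^ x, b ^ y)` with `x ≥ m` or `y ≥ m`;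
  here the exponent `1 / m` is best possible for every `m` (third part; already for `α = β = γ = 1`,
  `M₁ = M₂ = 0`, `x = 1`, `y = m`).

Proof. For the third terms by contradiction: in an ultraproduct of counterexamples, the points
`(a - M₁, b - M₂)` are generic on a variety of bounded complexity over which `M₁ + t₁` and `M₂ + t₂` are functions
with coefficients of exponential size; the determinant method makes a bounded power of the sum of the two terms an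
`R`-th power, `R` infinite, in the function field, and the abc theorem for function fields (heights) shows that the
ratio of the terms has bounded height; then `a` or `b` or `a ^ i / b ^ j` or the third term is constant on a large
set. The case of a constant coordinate and the pairs with a large exponent are treated with the determinant method
on curves `v (t + M) ^ y + u = s z ^ k` with coefficients `u, v, s` of exponential size. In the first part the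
exponents `x, y` may then be supposed to be bounded; if a box is far from the axes any three of the points with a
given third term are collinear, if it is near one of the axes only there is at most one point, and for bases of
polynomial size a theorem of the starting library (`GeneratedPairs`) applies.
-/

set_option autoImplicit false

namespace Pool.Agent.Results.MP_2738db_nt.ShortBoxes

/-- `α a ^ x + β b ^ y = γ c ^ k` for coprime `a` and `b` in the intervals `(M₁, M₁ + N]` and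
`(M₂, M₂ + N]`, with `x, y, c ≥ 1`, `k ≥ R` and `a ^ x, b ^ y ≤ E` -/
def Solution (M₁ M₂ N R : ℕ) (E : ℝ) (α β γ : ℤ) (a x b y c k : ℕ) : Prop :=
  (M₁ < a ∧ a ≤ M₁ + N) ∧ (M₂ < b ∧ b ≤ M₂ + N) ∧ Nat.Coprime a b ∧ 1 ≤ x ∧ 1 ≤ y ∧ 1 ≤ c ∧
    R ≤ k ∧ (a : ℝ) ^ x ≤ E ∧ (b : ℝ) ^ y ≤ E ∧
    α * (a : ℤ) ^ x + β * (b : ℤ) ^ y = γ * (c : ℤ) ^ k

/-- the third terms `c ^ k` -/
def Thirds (M₁ M₂ N R : ℕ) (E : ℝ) (α β γ : ℤ) : Set ℕ :=
  {w | ∃ a x b y c k : ℕ, Solution M₁ M₂ N R E α β γ a x b y c k ∧ w = c ^ k}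

/-- the quadruples `((a, b), (a ^ x, b ^ y))` with `x ≥ m` or `y ≥ m` -/
def Firsts (m M₁ M₂ N R : ℕ) (E : ℝ) (α β γ : ℤ) : Set ((ℕ × ℕ) × (ℕ × ℕ)) :=
  {q | ∃ x y c k : ℕ, Solution M₁ M₂ N R E α β γ q.1.1 x q.1.2 y c k ∧ (m ≤ x ∨ m ≤ y) ∧
    q.2 = (q.1.1 ^ x, q.1.2 ^ y)}

theorem firsts_finite (m M₁ M₂ N R : ℕ) (E : ℝ) (α β γ : ℤ) :
    (Firsts m M₁ M₂ N R E α β γ).Finite := by
  refine Set.Finite.subset ((((Finset.Iic (M₁ + N)) ×ˢ (Finset.Iic (M₂ + N))) ×ˢ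
    ((Finset.Iic ⌊E⌋₊) ×ˢ (Finset.Iic ⌊E⌋₊))).finite_toSet) ?_
  rintro ⟨⟨a, b⟩, ⟨A, B⟩⟩ ⟨x, y, c, k, ⟨h1, h2, -, -, -, -, -, h3, h4, -⟩, -, h5⟩
  simp only [Prod.mk.injEq] at h5
  obtain ⟨rfl, rfl⟩ := h5
  simp only [Finset.coe_product, Set.mem_prod, Finset.mem_coe, Finset.mem_Iic]
  exact ⟨⟨h1.2, h2.2⟩, Nat.le_floor (by exact_mod_cast h3), Nat.le_floor (by exact_mod_cast h4)⟩

theorem thirds_finite (M₁ M₂ N R : ℕ) (E : ℝ) (α β γ : ℤ) (hγ : γ ≠ 0) :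
    (Thirds M₁ M₂ N R E α β γ).Finite := by
  refine Set.Finite.subset (Finset.Iic ⌊|(α : ℝ)| * E + |(β : ℝ)| * E⌋₊).finite_toSet ?_
  rintro w ⟨a, x, b, y, c, k, ⟨-, -, -, -, -, -, -, h3, h4, h6⟩, rfl⟩
  simp only [Finset.mem_coe, Finset.mem_Iic]
  apply Nat.le_floor
  have hγ' : (1 : ℝ) ≤ |(γ : ℝ)| := by
    have : 1 ≤ |γ| := Int.one_le_abs hγ
    exact_mod_cast this
  have e1 : (α : ℝ) * (a : ℝ) ^ x + (β : ℝ) * (b : ℝ) ^ y = (γ : ℝ) * (c : ℝ) ^ k := by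
    exact_mod_cast h6
  push_cast
  calc (c : ℝ) ^ k ≤ |(γ : ℝ)| * (c : ℝ) ^ k := le_mul_of_one_le_left (by positivity) hγ'
    _ = |(γ : ℝ) * (c : ℝ) ^ k| := by
        rw [abs_mul, abs_of_nonneg (show (0 : ℝ) ≤ (c : ℝ) ^ k by positivity)]
    _ = |(α : ℝ) * (a : ℝ) ^ x + (β : ℝ) * (b : ℝ) ^ y| := by rw [e1]
    _ ≤ |(α : ℝ) * (a : ℝ) ^ x| + |(β : ℝ) * (b : ℝ) ^ y| := abs_add_le _ _
    _ = |(α : ℝ)| * (a : ℝ) ^ x + |(β : ℝ)| * (b : ℝ) ^ y := by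
        rw [abs_mul, abs_mul, abs_of_nonneg (show (0 : ℝ) ≤ (a : ℝ) ^ x by positivity),
          abs_of_nonneg (show (0 : ℝ) ≤ (b : ℝ) ^ y by positivity)]
    _ ≤ |(α : ℝ)| * E + |(β : ℝ)| * E := by gcongr

/-- the lower bound -/
theorem lower (m : ℕ) (hm : 1 ≤ m) (R : ℕ) (δ : ℝ) (hδ : 0 < δ) : ∃ k₀ : ℕ, ∀ k : ℕ, k₀ ≤ k →
    ((2 ^ k : ℕ) : ℝ) ^ (1 / (m : ℝ)) / 4 ≤
      (((Firsts m 0 0 (2 ^ k) R (Real.exp (((2 ^ k : ℕ) : ℝ) ^ δ)) 1 1 1).ncard : ℕ) : ℝ) := by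
  classical
  have hm0 : (0 : ℝ) < m := by exact_mod_cast hm
  -- `N ≤ exp (N ^ δ)` for large `N`
  have hlim : ∀ᶠ N : ℕ in Filter.atTop, (N : ℝ) ≤ Real.exp ((N : ℝ) ^ δ) := by
    have h1 : Filter.Tendsto (fun N : ℕ => Real.log (N : ℝ) / (N : ℝ) ^ δ) Filter.atTop
        (nhds 0) := (isLittleO_log_rpow_atTop hδ).tendsto_div_nhds_zero.comp
          tendsto_natCast_atTop_atTop
    filter_upwards [h1.eventually (gt_mem_nhds (show (0 : ℝ) < 1 by norm_num)),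
      Filter.eventually_ge_atTop 1] with N h2 h3
    have hN : (0 : ℝ) < N := by exact_mod_cast h3
    rw [div_lt_one (by positivity)] at h2
    rw [← Real.log_le_iff_le_exp hN]
    exact h2.le
  obtain ⟨N₀, hN₀⟩ := Filter.eventually_atTop.1 hlim
  refine ⟨max (max R m) N₀, fun k hk => ?_⟩
  have hkR : R ≤ k := (le_max_left _ _).trans ((le_max_left _ _).trans hk)
  have hkm : m ≤ k := (le_max_right _ _).trans ((le_max_left _ _).trans hk)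
  have hkN : N₀ ≤ 2 ^ k := ((le_max_right _ _).trans hk).trans Nat.lt_two_pow_self.le
  have hE := hN₀ (2 ^ k) hkN
  set E := Real.exp (((2 ^ k : ℕ) : ℝ) ^ δ) with hEdef
  obtain ⟨j, hj⟩ : ∃ j, k / m = j + 1 := by
    have : 1 ≤ k / m := (Nat.one_le_div_iff (by omega)).2 hkm
    exact ⟨k / m - 1, by omega⟩
  set f : ℕ → (ℕ × ℕ) × (ℕ × ℕ) := fun i =>
    ((2 ^ k - (2 * i + 1) ^ m, 2 * i + 1), (2 ^ k - (2 * i + 1) ^ m, (2 * i + 1) ^ m)) with hf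
  have hsub : (((Finset.range (2 ^ j)).image f : Finset _) : Set ((ℕ × ℕ) × (ℕ × ℕ))) ⊆
      Firsts m 0 0 (2 ^ k) R E 1 1 1 := by
    intro q hq
    rw [Finset.mem_coe] at hq
    obtain ⟨i, hi, rfl⟩ := Finset.mem_image.1 hq
    have hi' : i < 2 ^ j := Finset.mem_range.1 hi
    have h1 : (2 * i + 1) ^ m < 2 ^ k := by
      calc (2 * i + 1) ^ m < (2 ^ (j + 1)) ^ m := by
            apply Nat.pow_lt_pow_left _ (by omega)
            rw [pow_succ]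
            omega
        _ = 2 ^ ((j + 1) * m) := by rw [← pow_mul]
        _ ≤ 2 ^ k := by
            apply Nat.pow_le_pow_right (by norm_num)
            rw [← hj]
            exact Nat.div_mul_le_self k m
    have h2 : 2 * i + 1 ≤ (2 * i + 1) ^ m := Nat.le_self_pow (by omega) _
    refine ⟨1, m, 2, k, ⟨⟨?_, ?_⟩, ⟨by simp [hf], ?_⟩, ?_, le_rfl, hm, by norm_num, hkR, ?_, ?_, ?_⟩,
      Or.inr le_rfl, ?_⟩
    · simp only [hf]; omega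
    · simp only [hf]; omega
    · simp only [hf]; omega
    · simp only [hf]
      have h3 : Nat.Coprime (2 ^ k) (2 * i + 1) :=
        Nat.Coprime.pow_left k (by simp)
      have h4 : 2 ^ k = (2 ^ k - (2 * i + 1) ^ m) + (2 * i + 1) * (2 * i + 1) ^ (m - 1) := by
        have : (2 * i + 1) * (2 * i + 1) ^ (m - 1) = (2 * i + 1) ^ m := by
          rw [← pow_succ']
          congr 1
          omega
        omega
      rw [h4] at h3
      simpa using h3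
    · simp only [hf, pow_one]
      refine le_trans ?_ hE
      exact_mod_cast Nat.sub_le _ _
    · simp only [hf]
      refine le_trans ?_ hE
      exact_mod_cast h1.le
    · simp only [hf, pow_one, one_mul]
      push_cast [Nat.cast_sub h1.le]
      ring
    · simp only [hf, pow_one]
  have hinj : Set.InjOn f ((Finset.range (2 ^ j) : Finset ℕ) : Set ℕ) := by
    intro i _ i' _ h
    simp only [hf, Prod.mk.injEq] at h
    omega
  have hcard : 2 ^ j ≤ (Firsts m 0 0 (2 ^ k) R E 1 1 1).ncard := by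
    have h1 := Set.ncard_le_ncard hsub (firsts_finite _ _ _ _ _ _ _ _ _)
    rw [Set.ncard_coe_finset, Finset.card_image_of_injOn hinj, Finset.card_range] at h1
    exact h1
  have h3 : ((2 ^ k : ℕ) : ℝ) ^ (1 / (m : ℝ)) / 4 ≤ ((2 ^ j : ℕ) : ℝ) := by
    push_cast
    rw [← Real.rpow_natCast, ← Real.rpow_natCast, ← Real.rpow_mul (by norm_num)]
    have h4 : (4 : ℝ) = (2 : ℝ) ^ (2 : ℝ) := by norm_num
    rw [h4, ← Real.rpow_sub (by norm_num)]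
    apply Real.rpow_le_rpow_of_exponent_le (by norm_num)
    have h5 : k < (j + 1 + 1) * m := by
      rw [← hj]
      have := Nat.lt_div_mul_add (a := k) (b := m) (by omega)
      nlinarith
    have h6 : (k : ℝ) < ((j : ℝ) + 2) * m := by
      have : ((k : ℕ) : ℝ) < (((j + 1 + 1) * m : ℕ) : ℝ) := by exact_mod_cast h5
      push_cast at this
      linarith
    have h7 : (k : ℝ) * (1 / m) < (j : ℝ) + 2 := by
      rw [mul_one_div, div_lt_iff₀ hm0]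
      exact h6
    linarith
  exact h3.trans (by exact_mod_cast hcard)

/-- The solutions of `a ^ x + b ^ y = c ^ k`, the term `c ^ k` being in any of the three positions, with
coprime `a`, `b` in the intervals `(M₁, M₁ + N]`, `(M₂, M₂ + N]`, `x, y ≥ 2`, `c ≥ 1`, `k ≥ R` and
`a ^ x, b ^ y ≤ E`: the bases `a`, `b` together with the three terms. -/
def Values (M₁ M₂ N R : ℕ) (E : ℝ) : Set (ℕ × ℕ × ℕ × ℕ × ℕ) :=
  {v | ∃ a x b y c k : ℕ, (M₁ < a ∧ a ≤ M₁ + N) ∧ (M₂ < b ∧ b ≤ M₂ + N) ∧ Nat.Coprime a b ∧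
    2 ≤ x ∧ 2 ≤ y ∧ 1 ≤ c ∧ R ≤ k ∧ (a : ℝ) ^ x ≤ E ∧ (b : ℝ) ^ y ≤ E ∧
    (a ^ x + b ^ y = c ^ k ∨ a ^ x + c ^ k = b ^ y ∨ b ^ y + c ^ k = a ^ x) ∧
    v = (a, b, a ^ x, b ^ y, c ^ k)}

theorem values_finite (M₁ M₂ N R : ℕ) (E : ℝ) : (Values M₁ M₂ N R E).Finite := by
  refine Set.Finite.subset (((Finset.Iic (M₁ + N)) ×ˢ (Finset.Iic (M₂ + N)) ×ˢ
    (Finset.Iic ⌊E⌋₊) ×ˢ (Finset.Iic ⌊E⌋₊) ×ˢ (Finset.Iic (⌊E⌋₊ + ⌊E⌋₊))).finite_toSet) ?_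
  rintro v ⟨a, x, b, y, c, k, h1, h2, -, -, -, -, -, h3, h4, h5, rfl⟩
  have k3 : a ^ x ≤ ⌊E⌋₊ := Nat.le_floor (by exact_mod_cast h3)
  have k4 : b ^ y ≤ ⌊E⌋₊ := Nat.le_floor (by exact_mod_cast h4)
  simp only [Finset.coe_product, Set.mem_prod, Finset.mem_coe, Finset.mem_Iic]
  exact ⟨h1.2, h2.2, k3, k4, by omega⟩

theorem few_values (ε : ℝ) (hε : 0 < ε) : ∃ (R : ℕ) (δ : ℝ), 0 < δ ∧ ∃ N₀ : ℕ, ∀ N : ℕ, N₀ ≤ N →
    ∀ M₁ M₂ : ℕ, (((Values M₁ M₂ N R (Real.exp ((N : ℝ) ^ δ))).ncard : ℕ) : ℝ) ≤ (N : ℝ) ^ ε := by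
  classical
  obtain ⟨R, δ, hδ, N₁, h⟩ := Pool.Agent.H8FC.few_fc (ε / 2) (by positivity)
  have hpow : Filter.Tendsto (fun N : ℕ => (N : ℝ) ^ (ε / 2)) Filter.atTop Filter.atTop :=
    (tendsto_rpow_atTop (by positivity)).comp tendsto_natCast_atTop_atTop
  obtain ⟨N₂, hN₂⟩ := Filter.eventually_atTop.1 ((hpow.eventually_ge_atTop 3).and
    (Filter.eventually_ge_atTop 1))
  refine ⟨R, δ, hδ, max N₁ N₂, fun N hN M₁ M₂ => ?_⟩
  obtain ⟨h3, hN1⟩ := hN₂ N ((le_max_right _ _).trans hN)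
  have hN0 : (0 : ℝ) < N := by exact_mod_cast hN1
  set E := Real.exp ((N : ℝ) ^ δ) with hE
  have hf := values_finite M₁ M₂ N R E
  rw [Set.ncard_eq_toFinset_card _ hf]
  set T := hf.toFinset with hT
  have hmem : ∀ v ∈ T, ∃ a x b y c k : ℕ, (M₁ < a ∧ a ≤ M₁ + N) ∧ (M₂ < b ∧ b ≤ M₂ + N) ∧
      Nat.Coprime a b ∧ 2 ≤ x ∧ 2 ≤ y ∧ 1 ≤ c ∧ R ≤ k ∧ (a : ℝ) ^ x ≤ E ∧ (b : ℝ) ^ y ≤ E ∧
      (a ^ x + b ^ y = c ^ k ∨ a ^ x + c ^ k = b ^ y ∨ b ^ y + c ^ k = a ^ x) ∧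
      v = (a, b, a ^ x, b ^ y, c ^ k) := fun v hv => (Set.Finite.mem_toFinset hf).1 hv
  -- the three positions
  have part : ∀ (α β : ℤ), (α = 1 ∧ β = 1 ∨ α = -1 ∧ β = 1 ∨ α = 1 ∧ β = -1) →
      ((T.filter fun v => α * (v.2.2.1 : ℤ) + β * (v.2.2.2.1 : ℤ) = v.2.2.2.2).card : ℝ) ≤
        (N : ℝ) ^ (ε / 2) := by
    intro α β hαβ
    have hinj : Set.InjOn (fun v : ℕ × ℕ × ℕ × ℕ × ℕ => (((v.1, v.2.1), (v.2.2.1, v.2.2.2.1)) :
        (ℕ × ℕ) × (ℕ × ℕ))) ((T.filter fun v => α * (v.2.2.1 : ℤ) + β * (v.2.2.2.1 : ℤ) =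
          v.2.2.2.2 : Finset _) : Set _) := by
      intro v hv v' hv' he
      have e1 := (Finset.mem_filter.1 (Finset.mem_coe.1 hv)).2
      have e2 := (Finset.mem_filter.1 (Finset.mem_coe.1 hv')).2
      simp only [Prod.mk.injEq] at he
      obtain ⟨⟨g1, g2⟩, g3, g4⟩ := he
      rw [g3, g4, e2] at e1
      have g5 : v.2.2.2.2 = v'.2.2.2.2 := by exact_mod_cast e1.symm
      exact Prod.ext g1 (Prod.ext g2 (Prod.ext g3 (Prod.ext g4 g5)))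
    rw [← Finset.card_image_of_injOn hinj]
    refine h N ((le_max_left _ _).trans hN) M₁ M₂ α β hαβ _ fun s hs => ?_
    obtain ⟨v, hv, rfl⟩ := Finset.mem_image.1 hs
    obtain ⟨hv1, hv2⟩ := Finset.mem_filter.1 hv
    obtain ⟨a, x, b, y, c, k, k1, k2, k3, k4, k5, k6, k7, k8, k9, -, rfl⟩ := hmem v hv1
    refine ⟨x, y, c, k, ⟨k1, k2, k3, by omega, by omega, k6, k7, k8, k9, ?_⟩, k4, k5, rfl⟩
    rw [one_mul]
    push_cast at hv2
    exact hv2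
  have hcov : T ⊆ (T.filter fun v => (1 : ℤ) * (v.2.2.1 : ℤ) + 1 * (v.2.2.2.1 : ℤ) = v.2.2.2.2) ∪
      ((T.filter fun v => (-1 : ℤ) * (v.2.2.1 : ℤ) + 1 * (v.2.2.2.1 : ℤ) = v.2.2.2.2) ∪
      (T.filter fun v => (1 : ℤ) * (v.2.2.1 : ℤ) + (-1) * (v.2.2.2.1 : ℤ) = v.2.2.2.2)) := by
    intro v hv
    obtain ⟨a, x, b, y, c, k, -, -, -, -, -, -, -, -, -, k10, k11⟩ := hmem v hv
    simp only [Finset.mem_union, Finset.mem_filter]
    rcases k10 with e | e | e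
    · left
      refine ⟨hv, ?_⟩
      rw [k11]
      have : ((a ^ x : ℕ) : ℤ) + ((b ^ y : ℕ) : ℤ) = ((c ^ k : ℕ) : ℤ) := by exact_mod_cast e
      show (1 : ℤ) * ((a ^ x : ℕ) : ℤ) + 1 * ((b ^ y : ℕ) : ℤ) = ((c ^ k : ℕ) : ℤ)
      linarith
    · right; left
      refine ⟨hv, ?_⟩
      rw [k11]
      have : ((a ^ x : ℕ) : ℤ) + ((c ^ k : ℕ) : ℤ) = ((b ^ y : ℕ) : ℤ) := by exact_mod_cast e
      show (-1 : ℤ) * ((a ^ x : ℕ) : ℤ) + 1 * ((b ^ y : ℕ) : ℤ) = ((c ^ k : ℕ) : ℤ)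
      linarith
    · right; right
      refine ⟨hv, ?_⟩
      rw [k11]
      have : ((b ^ y : ℕ) : ℤ) + ((c ^ k : ℕ) : ℤ) = ((a ^ x : ℕ) : ℤ) := by exact_mod_cast e
      show (1 : ℤ) * ((a ^ x : ℕ) : ℤ) + (-1) * ((b ^ y : ℕ) : ℤ) = ((c ^ k : ℕ) : ℤ)
      linarith
  have c1 := part 1 1 (by simp)
  have c2 := part (-1) 1 (by simp)
  have c3 := part 1 (-1) (by simp)
  have h5 := (Finset.card_le_card hcov).trans ((Finset.card_union_le _ _).trans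
    (Nat.add_le_add_left (Finset.card_union_le _ _) _))
  have h6 : (T.card : ℝ) ≤ 3 * (N : ℝ) ^ (ε / 2) := by
    have : (T.card : ℝ) ≤ ((T.filter fun v => (1 : ℤ) * (v.2.2.1 : ℤ) + 1 * (v.2.2.2.1 : ℤ) =
        v.2.2.2.2).card : ℝ) + (((T.filter fun v => (-1 : ℤ) * (v.2.2.1 : ℤ) +
        1 * (v.2.2.2.1 : ℤ) = v.2.2.2.2).card : ℝ) + ((T.filter fun v => (1 : ℤ) * (v.2.2.1 : ℤ) +
        (-1) * (v.2.2.2.1 : ℤ) = v.2.2.2.2).card : ℝ)) := by exact_mod_cast h5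
    linarith
  calc (T.card : ℝ) ≤ 3 * (N : ℝ) ^ (ε / 2) := h6
    _ ≤ (N : ℝ) ^ (ε / 2) * (N : ℝ) ^ (ε / 2) := by gcongr
    _ = (N : ℝ) ^ ε := by rw [← Real.rpow_add hN0]; congr 1; ring

theorem result :
    (∀ ε : ℝ, 0 < ε → ∃ (R : ℕ) (δ : ℝ), 0 < δ ∧ ∃ N₀ : ℕ, ∀ N : ℕ, N₀ ≤ N → ∀ M₁ M₂ : ℕ,
      (Values M₁ M₂ N R (Real.exp ((N : ℝ) ^ δ))).Finite ∧
        (((Values M₁ M₂ N R (Real.exp ((N : ℝ) ^ δ))).ncard : ℕ) : ℝ) ≤ (N : ℝ) ^ ε) ∧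
    (∀ ε : ℝ, 0 < ε → ∃ (R : ℕ) (δ : ℝ), 0 < δ ∧ ∃ N₀ : ℕ, ∀ N : ℕ, N₀ ≤ N →
      ∀ (M₁ M₂ : ℕ) (α β γ : ℤ), α ≠ 0 → β ≠ 0 → γ ≠ 0 →
        |(α : ℝ)| ≤ Real.exp ((N : ℝ) ^ δ) → |(β : ℝ)| ≤ Real.exp ((N : ℝ) ^ δ) →
        |(γ : ℝ)| ≤ Real.exp ((N : ℝ) ^ δ) →
        ((Thirds M₁ M₂ N R (Real.exp ((N : ℝ) ^ δ)) α β γ).Finite ∧
          (((Thirds M₁ M₂ N R (Real.exp ((N : ℝ) ^ δ)) α β γ).ncard : ℕ) : ℝ) ≤ (N : ℝ) ^ ε) ∧
        ∀ m : ℕ, 1 ≤ m → (Firsts m M₁ M₂ N R (Real.exp ((N : ℝ) ^ δ)) α β γ).Finite ∧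
          (((Firsts m M₁ M₂ N R (Real.exp ((N : ℝ) ^ δ)) α β γ).ncard : ℕ) : ℝ) ≤
            (N : ℝ) ^ (1 / (m : ℝ) + ε)) ∧
    (∀ m : ℕ, 1 ≤ m → ∀ (R : ℕ) (δ : ℝ), 0 < δ → ∃ k₀ : ℕ, ∀ k : ℕ, k₀ ≤ k →
      ((2 ^ k : ℕ) : ℝ) ^ (1 / (m : ℝ)) / 4 ≤
        (((Firsts m 0 0 (2 ^ k) R (Real.exp (((2 ^ k : ℕ) : ℝ) ^ δ)) 1 1 1).ncard : ℕ) : ℝ)) := by
  refine ⟨fun ε hε => ?_, fun ε hε => ?_, lower⟩
  · obtain ⟨R, δ, hδ, N₀, h⟩ := few_values ε hε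
    exact ⟨R, δ, hδ, N₀, fun N hN M₁ M₂ => ⟨values_finite _ _ _ _ _, h N hN M₁ M₂⟩⟩
  obtain ⟨R, δ, hδ, N₀, h⟩ := Pool.Agent.H8FC.few_both ε hε
  refine ⟨R, δ, hδ, N₀, fun N hN M₁ M₂ α β γ hα hβ hγ hαd hβd hγd => ?_⟩
  obtain ⟨h1, h2⟩ := h N hN M₁ M₂ α β γ hα hβ hγ hαd hβd hγd
  have conv : ∀ {a x b y c k : ℕ},
      Solution M₁ M₂ N R (Real.exp ((N : ℝ) ^ δ)) α β γ a x b y c k →
      Pool.Agent.H8FC.Sol M₁ M₂ N R (Real.exp ((N : ℝ) ^ δ)) α β γ a x b y c k :=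
    fun ⟨k1, k2, k3, k4, k5, k6, k7, k8, k9, k10⟩ => ⟨k1, k2, k3, k4, k5, k6, k7, k8, k9, k10⟩
  refine ⟨?_, fun m hm => ?_⟩
  · have hf := thirds_finite M₁ M₂ N R (Real.exp ((N : ℝ) ^ δ)) α β γ hγ
    refine ⟨hf, ?_⟩
    rw [Set.ncard_eq_toFinset_card _ hf]
    refine h1 _ fun w hw => ?_
    rw [Set.Finite.mem_toFinset] at hw
    obtain ⟨a, x, b, y, c, k, k1, k2⟩ := hw
    exact ⟨a, x, b, y, c, k, conv k1, k2⟩
  · have hf := firsts_finite m M₁ M₂ N R (Real.exp ((N : ℝ) ^ δ)) α β γ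
    refine ⟨hf, ?_⟩
    rw [Set.ncard_eq_toFinset_card _ hf]
    refine h2 m hm _ fun q hq => ?_
    rw [Set.Finite.mem_toFinset] at hq
    obtain ⟨x, y, c, k, k1, k2, k3⟩ := hq
    exact ⟨x, y, c, k, conv k1, k2, k3⟩

end Pool.Agent.Results.MP_2738db_nt.ShortBoxes
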